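import Pool.Agent.V7H70.DG.Main

/-!
# P versus polylogarithmic space: frugal nondeterministic programs for the generation problem

The generation problem GEN (is `f` in the set generated by `e` with respect to a multiplication table
`g` on `n` elements?) is complete for `P`, so `P` is contained in `POLYLOGSPACE` if and only if GEN is.
Nondeterministic Turing machines with space `S(n) ≥ log n` are simulated by nondeterministic branching
programs with `2 ^ O(S(n))` nodes.  The natural algorithms for GEN ask for a product `g (p, q)` only if
they have found out before that `p` and `q` are generated.  Branching programs of this kind were called
incremental by Gál, Koucký and McKenzie (2008), who proved exponential lower bounds for the syntactic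
variant, where the condition is imposed on all paths of the graph, and left open the superpolynomial
lower bounds for the semantic variant, where it is imposed only on the paths which are followed by some
input.  For deterministic programs this was answered by Wehr (2011), by means of the thrifty programs of
Cook, McKenzie, Wehr, Braverman and Santhanam.
For nondeterministic programs the methods (pebbling) did not suffice; a superpolynomial lower bound for
nondeterministic thrifty programs was known only with further restrictions (Komarath, Sarma 2015).

Here an exponential lower bound is proved for nondeterministic programs under a still weaker condition:
on every accepting path there are at most `r` wasteful queries, that is pairs `(p, q)` whose product is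
asked for although `p` or `q` is not generated (`r` may be as large as `n ^ (1 / 7)` up to a constant).
For `r = 0` one gets that programs with `2 ^ b` nodes do not solve GEN on `n ≥ 972 (b + 1) ^ 5` elements,
and for `16 r ≤ b + 1` the same for `n ≥ 104976 (b + 1) ^ 7`.

Proof.  Take a directed acyclic graph with a source `v₀`, every other node having two children, with
different pairs of children for different nodes.  The elements are the pairs `(v, a)` of a node and a
value `a < k`; for a function `x` with values `x v < k` consider the table in which the product of
`(u, x u)` and `(w, x w)` is `(v, x v)` if `u` and `w` are the children of `v`, while all other products
are equal to `e = (v₀, 0)`.  Let `f = (root, 0)`.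
1. All nodes below the root are read on accepting paths (otherwise one could change a product).
2. (Exchange argument.)  Let the accepting paths chosen for the functions `x` with `x root = 0` contain
intervals with at least `b + 1` missing children (nodes not read in the interval, whose parents are read
in it).  Consider the functions `x` whose intervals lead from the node `s` to the node `t` of the
program, whose missing children contain the same set `D` with `b + 1` elements, and whose paths have the
same wasteful queries.  If `x = y` outside `D`, replace the interval of the path of `x` by that of the
path of `y`.  The new path does not test any product inconsistently, so it is an accepting path for some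
table, for which only `x d` is a generated value of `d ∈ D`.  But the parent of `d` is read in the
interval at the value `y d`.  So `x d = y d` for all `d ∈ D`, except for at most `2 r`.  It follows that
`k ^ (b + 1)` is at most `|S| ^ 2` times the number of choices of `D` and of the wasteful queries times
the size of a Hamming ball.
3. The graph consists of `b + 1` levels; each of the `3 b + 2` main nodes of a level depends on all main
nodes of the level below by a path of its own.  An interval which contains `b + 1` main nodes of a level
and has at most `b` missing children contains `2 b + 2` main nodes of the level below, so it consists of
two parts with `b + 1` of them.  Hence a word with at most `b` missing children in every interval which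
contains all nodes has length at least `2 ^ b`.  But a shortest accepting path has less than `|S|`
tests.
-/

set_option autoImplicit false

namespace Pool.Agent.Results.MP_d19090_lc.FrugalGenerationH70

open Pool.Agent.V7H70.DG

/-- **Frugal nondeterministic branching programs for the generation problem have exponential size.**
Let `8 r ≤ b + 1`, `(108 (b + 1) ^ 2) ^ (b + 1) ≤ k ^ (b + 1 - 8 r)` and `9 (b + 1) ^ 3 k ≤ n`.  Let `B`
be a nondeterministic branching program which accepts a multiplication table on `n` elements if and only
if `f` is in the set generated by `e` (`e ≠ f`).  If all accepting paths for all tables have at most `r`
wasteful queries, then `B` has more than `2 ^ b` nodes.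

For `r = 0` and `k = 108 (b + 1) ^ 2` the condition is `n ≥ 972 (b + 1) ^ 5`, and for `16 r ≤ b + 1` and
`k = (108 (b + 1) ^ 2) ^ 2` it is `n ≥ 104976 (b + 1) ^ 7`. -/
theorem result (b r k n : ℕ) (hr : 8 * r ≤ b + 1)
    (hk : (108 * (b + 1) ^ 2) ^ (b + 1) ≤ k ^ (b + 1 - 8 * r)) (hn : 9 * (b + 1) ^ 3 * k ≤ n)
    (e f : Fin n) (hef : e ≠ f) (S : Type) [Fintype S] (B : NBP (Fin n × Fin n) (Fin n) S)
    (hB : SolvesGen B e f) (hF : Frugal B e r) : 2 ^ b < Fintype.card S :=
  lower hr hk hn hef hB hF

end Pool.Agent.Results.MP_d19090_lc.FrugalGenerationH70
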