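import Pool.Agent.V7H56.LS.Rec

/-!
# The permutation groups of `P`, `NP ∩ coNP`, `DLBA` and `PSPACE`

To each of the four classes `c` belongs the group `c.grp` of the length-preserving permutations of
the set of bit strings which are computable in the class. We show that each group embeds in each
other one, that the isomorphism type of the group determines the class (and the inclusions between
the classes), and that the group of `DLBA` (deterministic linear space) is not isomorphic to any
of the other three groups.
-/

namespace Pool.Agent.Results.MP_d19090_lc.GroupsOfClassesH56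

open Pool.Agent.V7H56.PP Pool.Agent.V7H56.RG Pool.Agent.V7H56.LS

theorem result :
    -- the group of `DLBA` is not isomorphic to the group of `P`, `NP ∩ coNP` or `PSPACE`
    (∀ c : Cl, c ≠ Cl.dlba → IsEmpty (Cl.dlba.grp ≃* c.grp)) ∧
    -- although each of the four groups embeds in each other one
    (∀ c d : Cl, ∃ f : c.grp →* d.grp, Function.Injective f) ∧
    -- the classes and their inclusions are determined by isomorphism types of groups
    (∀ c d : Cl,
      List.TFAE [c.lang = d.lang, c.grp = d.grp, Nonempty (c.grp ≃* d.grp)] ∧
      List.TFAE [c.lang ⊆ d.lang, c.grp ≤ d.grp, Nonempty (↥(c.grp ⊔ d.grp) ≃* d.grp)]) ∧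
    -- each of the four groups contains all transpositions of strings of equal length and three simple
    -- permutations, and is the only group of its isomorphism type among the groups of
    -- length-preserving permutations with this property
    (∀ c : Cl, c.grp ≤ LPerm ∧ (∀ x y : List Bool, x.length = y.length →
      Equiv.swap x y ∈ c.grp) ∧ Three c.grp) ∧
    (∀ (c : Cl) (G : Subgroup (Equiv.Perm (List Bool))), G ≤ LPerm →
      (∀ x y : List Bool, x.length = y.length → Equiv.swap x y ∈ G) → Three G →
      Nonempty (G ≃* c.grp) → G = c.grp) :=
  ⟨fun _ hc => no_iso hc, exists_emb, fun c d => ⟨tfae_cl c d, tfae_le c d⟩,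
    fun c => ⟨c.big.le, c.big.sw, three_cl c⟩, fun c _ h0 h1 h2 ⟨Φ⟩ =>
      recog_all c ⟨h0, h1⟩ (three_mem h2).1 (three_mem h2).2.1 (three_mem h2).2.2 Φ⟩

end Pool.Agent.Results.MP_d19090_lc.GroupsOfClassesH56
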