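import Pool.Agent.V7H59.CT.WitDiag

/-!
# DLBA is not contained in small nondeterministic, co-nondeterministic or probabilistic time

Cellular automata of dimension `d` are parallel machines; with polynomial time and witnesses of
polynomial length they decide exactly the languages in `NP`. For every dimension `d` and every
constant `c` there is a language in deterministic linear space (`DLBA`) which they do not decide in
time `c n ^ (1 + 1 / d) / log n` with witnesses of length `c n`, and the same holds for universal and
for majority acceptance.
-/

set_option autoImplicit false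

namespace Pool.Agent.Results.MP_d19090_lc.LinearWitnessH59

open Pool.Agent.V7H59.CT

/-- For every dimension `d ≥ 1` and every constant `c` there is a language `A` in deterministic
linear space such that for all large `n`, for every `d`-dimensional cellular automaton with `q`
states, `q ^ (3 ^ d + 2) ≤ n`, every time `t` with `(t log n) ^ d (log q + 1) ≤ c n ^ (d + 1)` and
every threshold `2 ^ j` with `j ≤ c n`, the following fails for some input `x` of length `n`: `x ∈ A`
if and only if the automaton accepts `x` at time `t` with at least `2 ^ j` of the witnesses `y` of
length `c n`. The case `j = 0` is nondeterministic, the case `j = c n` co-nondeterministic, the case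
`j = c n - 1` majority acceptance. -/
theorem result (d : ℕ) [NeZero d] (c : ℕ) : ∃ A : Set (List Bool), InLinSpace A ∧
    ∃ n₀ : ℕ, ∀ n ≥ n₀, ∀ M : CellAut d, Fintype.card M.Q ^ (3 ^ d + 2) ≤ n →
      ∀ t : ℕ, (t * Nat.log 2 n) ^ d * (Nat.log 2 (Fintype.card M.Q) + 1) ≤ c * n ^ (d + 1) →
        ∀ j ≤ c * n, ∃ x : List Bool, x.length = n ∧ ¬ (x ∈ A ↔ 2 ^ j ≤
          Set.ncard {y : List Bool | y.length = c * x.length ∧ M.accepts (mix c x y) t}) := by
  obtain ⟨c', n₀, h⟩ := lang_hardW d c
  exact ⟨_, langW_inLinSpace d (Cst d c') c, n₀, h⟩

end Pool.Agent.Results.MP_d19090_lc.LinearWitnessH59
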