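import Pool.Agent.V7H56.LS.Cpl

/-!
# The questions whether `DLBA ⊆ P` and whether `DLBA ⊆ NP` concern a single permutation

There is a length-preserving permutation `g` of the set of bit strings, computable in polynomial time
together with its inverse, such that `DLBA ⊄ P` if and only if `g` is not conjugate to its inverse in
the group of polynomial-time permutations, and `DLBA ⊄ NP` if and only if `g` is not conjugate to its
inverse in the group of the permutations whose graph is in `NP`. In the groups of the permutations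
computable in linear space, or in polynomial space, every element is a product of two involutions.
-/

namespace Pool.Agent.Results.MP_d19090_lc.OnePermutationH56

open Pool.Agent.NPC Pool.Agent.V7H59.CT Pool.Agent.V7H56.PP Pool.Agent.V7H56.RG
  Pool.Agent.V7H56.LS

theorem result :
    (∃ g ∈ PPerm,
      -- `DLBA ⊆ P`
      List.TFAE [∀ S, InLinSpace S → InP S,
        ∀ S, S ∈ Cl.pspace.lang → InP S,
        ∃ h ∈ PPerm, h * g * h⁻¹ = g⁻¹,
        ∃ a ∈ PPerm, ∃ b ∈ PPerm, a * a = 1 ∧ b * b = 1 ∧ g = a * b,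
        ∀ k ∈ PPerm, ∃ a ∈ PPerm, ∃ b ∈ PPerm, a * a = 1 ∧ b * b = 1 ∧ k = a * b] ∧
      -- `DLBA ⊆ NP`
      List.TFAE [∀ S, InLinSpace S → InNP S,
        ∀ S, S ∈ Cl.pspace.lang → InNP S,
        ∃ h ∈ NPerm, h * g * h⁻¹ = g⁻¹,
        ∃ a ∈ NPerm, ∃ b ∈ NPerm, a * a = 1 ∧ b * b = 1 ∧ g = a * b,
        ∀ k ∈ NPerm, ∃ a ∈ NPerm, ∃ b ∈ NPerm, a * a = 1 ∧ b * b = 1 ∧ k = a * b]) ∧
    (∀ k ∈ DPerm, ∃ a ∈ DPerm, ∃ b ∈ DPerm, a * a = 1 ∧ b * b = 1 ∧ k = a * b) ∧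
    (∀ k ∈ SPerm, ∃ a ∈ SPerm, ∃ b ∈ SPerm, a * a = 1 ∧ b * b = 1 ∧ k = a * b) := by
  have hinv : ∀ {g a b : Equiv.Perm (List Bool)}, a * a = 1 → b * b = 1 → g = a * b →
      a * g * a⁻¹ = g⁻¹ := by
    intro g a b ha hb hg
    rw [hg, ← mul_assoc, ha, one_mul, mul_inv_rev, inv_of_sq hb]
  refine ⟨?_, fun k hk => DPerm_strongly_real hk, fun k hk => SPerm_strongly_real hk⟩
  obtain ⟨g, hg, h1, h2⟩ := exists_single
  refine ⟨g, hg, ?_, ?_⟩
  · tfae_have 1 → 2 := fun h => pspace_of_lin_sub_P h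
    tfae_have 2 → 5 := fun h => by
      rw [← SPerm_eq h]
      exact fun k hk => SPerm_strongly_real hk
    tfae_have 5 → 4 := fun h => h g hg
    tfae_have 4 → 3 := fun ⟨a, ha, b, _, e1, e2, e3⟩ => ⟨a, ha, hinv e1 e2 e3⟩
    tfae_have 3 → 1 := h1.2
    tfae_finish
  · tfae_have 1 → 2 := fun h => pspace_of_lin_sub_NP h
    tfae_have 2 → 5 := fun h k hk => by
      obtain ⟨a, ha, b, hb, e⟩ := SPerm_strongly_real (NPerm_le_SPerm hk)
      exact ⟨a, ⟨ha.1, h _ ha.2⟩, b, ⟨hb.1, h _ hb.2⟩, e⟩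
    tfae_have 5 → 4 := fun h => h g (PPerm_le_NPerm hg)
    tfae_have 4 → 3 := fun ⟨a, ha, b, _, e1, e2, e3⟩ => ⟨a, ha, hinv e1 e2 e3⟩
    tfae_have 3 → 1 := h2.2
    tfae_finish

end Pool.Agent.Results.MP_d19090_lc.OnePermutationH56
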